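import Pool.Agent.Y305.BC.Stm

/-! Cutting off the primitive of the Kähler form. -/

set_option autoImplicit false
set_option maxSynthPendingDepth 3

open MeasureTheory Metric Set Filter Topology
open scoped ContDiff ENNReal

namespace Pool.Agent.Y785.BC

open Pool.Agent.Y305.BC

namespace CutAux

section general

variable {X : Type} [NormedAddCommGroup X] [InnerProductSpace ℝ X] [FiniteDimensional ℝ X]

/-- the bump function -/
noncomputable def bp (X : Type) [NormedAddCommGroup X] [InnerProductSpace ℝ X] :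
    ContDiffBump (0 : X) := ⟨3 / 2, 2, by norm_num, by norm_num⟩

/-- the scaled bump function -/
noncomputable def cn (n : ℕ) (x : X) : ℝ := bp X ((1 / (n : ℝ)) • x)

theorem cn_smooth (n : ℕ) : ContDiff ℝ ∞ (cn n : X → ℝ) :=
  (bp X).contDiff.comp (contDiff_const_smul _)

theorem cn_nonneg (n : ℕ) (x : X) : 0 ≤ cn n x := (bp X).nonneg

theorem cn_le_one (n : ℕ) (x : X) : cn n x ≤ 1 := (bp X).le_one

theorem cn_one {n : ℕ} (hn : 1 ≤ n) {x : X} (hx : ‖x‖ ≤ 3 / 2 * n) : cn n x = 1 := by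
  have hn0 : (0 : ℝ) < n := by exact_mod_cast hn
  refine (bp X).one_of_mem_closedBall ?_
  rw [mem_closedBall_zero_iff, norm_smul, Real.norm_of_nonneg (by positivity)]
  change 1 / (n : ℝ) * ‖x‖ ≤ 3 / 2
  rw [div_mul_eq_mul_div, one_mul, div_le_iff₀ hn0]
  exact hx

theorem cn_zero {n : ℕ} (hn : 1 ≤ n) {x : X} (hx : 2 * n ≤ ‖x‖) : cn n x = 0 := by
  have hn0 : (0 : ℝ) < n := by exact_mod_cast hn
  refine (bp X).zero_of_le_dist ?_
  rw [dist_zero_right, norm_smul, Real.norm_of_nonneg (by positivity)]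
  change 2 ≤ 1 / (n : ℝ) * ‖x‖
  rw [div_mul_eq_mul_div, one_mul, le_div_iff₀ hn0]
  exact hx

theorem cn_supp {n : ℕ} (hn : 1 ≤ n) : HasCompactSupport (cn n : X → ℝ) := by
  refine HasCompactSupport.intro (isCompact_closedBall (0 : X) (2 * n)) fun x hx => ?_
  rw [mem_closedBall_zero_iff, not_le] at hx
  exact cn_zero hn hx.le

theorem dcn_bound : ∃ C : ℝ, 0 ≤ C ∧ ∀ n : ℕ, 1 ≤ n → ∀ x : X,
    ‖fderiv ℝ (cn n : X → ℝ) x‖ ≤ C / n := by
  obtain ⟨C, hC⟩ := ((bp X).hasCompactSupport.fderiv ℝ).exists_bound_of_continuous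
    ((bp X).contDiff.continuous_fderiv (n := 1) (by norm_num))
  refine ⟨C, (norm_nonneg _).trans (hC 0), fun n hn x => ?_⟩
  have hn0 : (0 : ℝ) < n := by exact_mod_cast hn
  have h1 : HasFDerivAt (cn n : X → ℝ)
      ((1 / (n : ℝ)) • fderiv ℝ (bp X) ((1 / (n : ℝ)) • x)) x := by
    have h2 : HasFDerivAt (fun x : X => (1 / (n : ℝ)) • x)
        ((1 / (n : ℝ)) • ContinuousLinearMap.id ℝ X) x :=
      ((1 / (n : ℝ)) • ContinuousLinearMap.id ℝ X).hasFDerivAt
    have h3 : HasFDerivAt (bp X) (fderiv ℝ (bp X) ((1 / (n : ℝ)) • x)) ((1 / (n : ℝ)) • x) :=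
      (((bp X).contDiff (n := 1)).differentiable (by norm_num) _).hasFDerivAt
    have h4 := h3.comp x h2
    refine h4.congr_fderiv ?_
    ext v
    simp
  rw [h1.fderiv, norm_smul, Real.norm_of_nonneg (by positivity), div_mul_eq_mul_div, one_mul]
  exact div_le_div_of_nonneg_right (hC _) hn0.le

theorem dcn_zero {n : ℕ} (hn : 1 ≤ n) {x : X} (hx : ‖x‖ ≤ n ∨ 2 * n < ‖x‖) :
    fderiv ℝ (cn n : X → ℝ) x = 0 := by
  have hn0 : (0 : ℝ) < n := by exact_mod_cast hn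
  rcases hx with hx | hx
  · have h1 : (cn n : X → ℝ) =ᶠ[𝓝 x] fun _ => (1 : ℝ) := by
      have h2 : ball (0 : X) (3 / 2 * n) ∈ 𝓝 x :=
        isOpen_ball.mem_nhds (by rw [mem_ball_zero_iff]; linarith)
      filter_upwards [h2] with y hy
      rw [mem_ball_zero_iff] at hy
      exact cn_one hn hy.le
    rw [h1.fderiv_eq]
    exact fderiv_const_apply _
  · have h1 : (cn n : X → ℝ) =ᶠ[𝓝 x] fun _ => (0 : ℝ) := by
      have h2 : {y : X | 2 * (n : ℝ) < ‖y‖} ∈ 𝓝 x :=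
        (isOpen_lt continuous_const continuous_norm).mem_nhds hx
      filter_upwards [h2] with y hy
      exact cn_zero hn (le_of_lt hy)
    rw [h1.fderiv_eq]
    exact fderiv_const_apply _

/-- the primitive -/
noncomputable def lam (k : X →L[ℝ] X →L[ℝ] ℝ) : X →L[ℝ] X →L[ℝ] ℝ := (1 / 2 : ℝ) • k

theorem lam_norm {k : X →L[ℝ] X →L[ℝ] ℝ} (hk : ‖k‖ ≤ 1) (x : X) : ‖lam k x‖ ≤ 1 / 2 * ‖x‖ := by
  have h1 : ‖lam k‖ ≤ 1 / 2 := by
    unfold lam
    rw [norm_smul, Real.norm_of_nonneg (by norm_num)]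
    linarith
  exact ((lam k).le_opNorm x).trans (mul_le_mul_of_nonneg_right h1 (norm_nonneg _))

/-- the product term -/
noncomputable def sr (k : X →L[ℝ] X →L[ℝ] ℝ) (n : ℕ) (x : X) : X →L[ℝ] X →L[ℝ] ℝ :=
  (fderiv ℝ (cn n : X → ℝ) x).smulRight (lam k x)

theorem sr_zero (k : X →L[ℝ] X →L[ℝ] ℝ) {n : ℕ} {x : X}
    (h : fderiv ℝ (cn n : X → ℝ) x = 0) : sr k n x = 0 := by
  unfold sr
  rw [h]
  ext v w
  simp

theorem gen {k : X →L[ℝ] X →L[ℝ] ℝ} (hk : ‖k‖ ≤ 1) (ha : ∀ v w, k v w = -k w v) :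
    ∃ C : ℝ, ∀ n : ℕ, 1 ≤ n → ∃ (η : X → X →L[ℝ] ℝ) (κ β : X → X →L[ℝ] X →L[ℝ] ℝ),
      (ContDiff ℝ ∞ η ∧ HasCompactSupport η) ∧
      (ContDiff ℝ ∞ κ ∧ HasCompactSupport κ ∧ ∀ x v, κ x v v = 0) ∧
      (ContDiff ℝ ∞ β ∧ HasCompactSupport β ∧ ∀ x v, β x v v = 0) ∧
      (∀ x, fderiv ℝ η x - (fderiv ℝ η x).flip = κ x + β x) ∧ (∀ x, ‖κ x‖ ≤ 1) ∧
      (∀ x, ‖x‖ ≤ n → κ x = k) ∧ (∀ x, ‖β x‖ ≤ C) ∧ ∀ x, ‖x‖ ≤ n → β x = 0 := by
  obtain ⟨C, hC0, hC⟩ := dcn_bound (X := X)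
  refine ⟨2 * C, fun n hn => ?_⟩
  have hn0 : (0 : ℝ) < n := by exact_mod_cast hn
  have hs : ContDiff ℝ ∞ (sr k n) := by
    have h1 : ContDiff ℝ ∞ (fun x => fderiv ℝ (cn n : X → ℝ) x) :=
      (cn_smooth n).fderiv_right (m := ∞) (by simp)
    exact h1.smulRight (lam k).contDiff
  have hsn : ∀ x, ‖sr k n x‖ ≤ C := by
    intro x
    by_cases hx : 2 * (n : ℝ) < ‖x‖
    · rw [sr_zero k (dcn_zero hn (Or.inr hx)), norm_zero]
      exact hC0
    · push Not at hx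
      unfold sr
      rw [ContinuousLinearMap.norm_smulRight_apply]
      calc ‖fderiv ℝ (cn n : X → ℝ) x‖ * ‖lam k x‖ ≤ (C / n) * (1 / 2 * ‖x‖) :=
            mul_le_mul (hC n hn x) (lam_norm hk x) (norm_nonneg _) (by positivity)
        _ ≤ (C / n) * (1 / 2 * (2 * n)) := by gcongr
        _ = C := by field_simp
  refine ⟨fun x => cn n x • lam k x, fun x => cn n x • k, fun x => sr k n x - (sr k n x).flip,
    ⟨(cn_smooth n).smul (lam k).contDiff, (cn_supp hn).smul_right⟩,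
    ⟨(cn_smooth n).smul contDiff_const, (cn_supp hn).smul_right, ?_⟩,
    ⟨?_, ?_, ?_⟩, ?_, ?_, ?_, ?_, ?_⟩
  · intro x v
    have h1 := ha v v
    have h2 : k v v = 0 := by linarith
    change cn n x * k v v = 0
    rw [h2, mul_zero]
  · exact hs.sub ((ContinuousLinearMap.flipₗᵢ ℝ X X ℝ).contDiff.comp hs)
  · refine ((cn_supp (X := X) hn).fderiv ℝ).mono fun x hx => ?_
    rw [Function.mem_support] at hx ⊢
    intro h1
    apply hx
    rw [sr_zero k h1]
    ext v w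
    simp
  · intro x v
    change sr k n x v v - (sr k n x).flip v v = 0
    rw [ContinuousLinearMap.flip_apply, sub_self]
  · intro x
    have h1 : HasFDerivAt (fun x => cn n x • lam k x) (cn n x • lam k + sr k n x) x := by
      have h2 : HasFDerivAt (cn n : X → ℝ) (fderiv ℝ (cn n : X → ℝ) x) x :=
        ((cn_smooth n).differentiable (by simp) x).hasFDerivAt
      exact h2.smul (lam k).hasFDerivAt
    rw [h1.fderiv]
    ext v w
    have h3 := ha v w
    change (cn n x * (1 / 2 * k v w) + sr k n x v w) - (cn n x * (1 / 2 * k w v) + sr k n x w v) =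
      cn n x * k v w + (sr k n x v w - sr k n x w v)
    rw [h3]
    ring
  · intro x
    rw [norm_smul, Real.norm_of_nonneg (cn_nonneg n x)]
    exact mul_le_one₀ (cn_le_one n x) (norm_nonneg _) hk
  · intro x hx
    change cn n x • k = k
    rw [cn_one hn (by linarith), one_smul]
  · intro x
    calc ‖sr k n x - (sr k n x).flip‖ ≤ ‖sr k n x‖ + ‖(sr k n x).flip‖ := norm_sub_le _ _
      _ ≤ C + C := by
          rw [ContinuousLinearMap.opNorm_flip]
          exact add_le_add (hsn x) (hsn x)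
      _ = 2 * C := by ring
  · intro x hx
    change sr k n x - (sr k n x).flip = 0
    rw [sr_zero k (dcn_zero hn (Or.inl hx))]
    ext v w
    simp

end general

theorem kah_anti (v w : E) : kah v w = -kah w v := by
  rw [kah_apply, kah_apply, WithLp.prod_inner_apply, WithLp.prod_inner_apply]
  have h1 : ∀ a b : ℂ, inner ℝ (Complex.I • a) b = -inner ℝ (Complex.I • b) a := by
    intro a b
    rw [Complex.inner, Complex.inner]
    simp only [smul_eq_mul, map_mul, Complex.conj_I, Complex.mul_re, Complex.mul_im,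
      Complex.neg_re, Complex.neg_im, Complex.I_re, Complex.I_im, Complex.conj_re,
      Complex.conj_im]
    ring
  have h2 := h1 v.fst w.fst
  have h3 := h1 v.snd w.snd
  change inner ℝ (Complex.I • v.fst) w.fst + inner ℝ (Complex.I • v.snd) w.snd =
    -(inner ℝ (Complex.I • w.fst) v.fst + inner ℝ (Complex.I • w.snd) v.snd)
  rw [h2, h3]
  ring

theorem kah_norm : ‖kah‖ ≤ 1 := by
  unfold kah
  exact LinearMap.mkContinuous₂_norm_le _ zero_le_one _

end CutAux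

open CutAux in
theorem cut : S_CUT := by
  obtain ⟨C, hC⟩ := gen (X := E) kah_norm kah_anti
  refine ⟨C, fun n hn => ?_⟩
  obtain ⟨η, κ, β, ⟨a1, a2⟩, ⟨b1, b2, b3⟩, ⟨c1, c2, c3⟩, h1, h2, h3, h4, h5⟩ := hC n hn
  exact ⟨η, κ, β, ⟨a1, a2, subset_univ _⟩, ⟨b1, b2, subset_univ _, b3⟩,
    ⟨c1, c2, subset_univ _, c3⟩, funext h1, h2, h3, h4, h5⟩

end Pool.Agent.Y785.BC
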