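import Pool.Agent.Y305.BC.Stm

/-! Two tangent sheets do not lie on a smooth surface. -/

set_option autoImplicit false
set_option maxSynthPendingDepth 3

open MeasureTheory Metric Set Filter Topology
open scoped ContDiff ENNReal

namespace Pool.Agent.Y785.BC

open Pool.Agent.Y305.BC

namespace EmbAux

/-- the pair as a linear map -/
noncomputable def ptL : (ℂ × ℂ) →L[ℝ] E :=
  ((WithLp.prodContinuousLinearEquiv 2 ℝ ℂ ℂ).symm : (ℂ × ℂ) →L[ℝ] E)

theorem ptL_apply (z w : ℂ) : ptL (z, w) = pt z w := rfl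

theorem norm_pt (w : ℂ) : ‖pt 0 w‖ = ‖w‖ := by
  have h := WithLp.prod_norm_sq_eq_of_L2 (pt 0 w)
  have h1 : (pt 0 w).fst = 0 := rfl
  have h2 : (pt 0 w).snd = w := rfl
  rw [h1, h2, norm_zero] at h
  have h3 : ‖pt 0 w‖ ^ 2 = ‖w‖ ^ 2 := by
    rw [h]
    ring
  exact (sq_eq_sq₀ (norm_nonneg _) (norm_nonneg _)).1 h3

/-- the vertical directions -/
noncomputable def vL : ℂ →L[ℝ] E := ptL.comp (ContinuousLinearMap.inr ℝ ℂ ℂ)

theorem vL_apply (w : ℂ) : vL w = pt 0 w := rfl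

end EmbAux

open EmbAux in
theorem emb : S_EMB := by
  intro c F' V Φ F q r hc hr hV hp hΦ hsur hF hq hall
  obtain ⟨p, hpd⟩ : ∃ p : E, p = pt c (F c) := ⟨_, rfl⟩
  rw [← hpd] at hp hsur
  obtain ⟨L, hL⟩ : ∃ L : E →L[ℝ] ℂ, L = fderiv ℝ Φ p := ⟨_, rfl⟩
  rw [← hL] at hsur
  have hst : HasStrictFDerivAt Φ L p := by
    rw [hL]
    exact (hΦ.contDiffAt (hV.mem_nhds hp)).hasStrictFDerivAt (by simp)
  obtain ⟨S, hS⟩ : ∃ S : Set ℂ, S = ball (0 : ℂ) 1 ∩ ball c r := ⟨_, rfl⟩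
  rw [← hS] at hall
  have hSb : S ⊆ closedBall (0 : ℂ) 1 := by
    rw [hS]
    exact inter_subset_left.trans ball_subset_closedBall
  have hcl : c ∈ closure (ball (0 : ℂ) 1) := by
    rw [closure_ball (0 : ℂ) one_ne_zero, mem_closedBall_zero_iff, hc]
  have huniq : UniqueDiffWithinAt ℝ S c := by
    rw [hS]
    refine UniqueDiffWithinAt.inter ?_ (ball_mem_nhds c hr)
    refine uniqueDiffWithinAt_convex (convex_ball _ _) ?_ hcl
    rw [isOpen_ball.interior_eq]
    exact ⟨0, mem_ball_self one_pos⟩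
  have hne : (𝓝[S] c).NeBot := by
    have h1 : 𝓝[S] c = 𝓝[ball (0 : ℂ) 1] c := by
      rw [hS, inter_comm]
      exact nhdsWithin_inter_of_mem (mem_nhdsWithin_of_mem_nhds (ball_mem_nhds c hr))
    rw [h1]
    exact mem_closure_iff_nhdsWithin_neBot.1 hcl
  -- the derivative of the graph map
  obtain ⟨A, hA⟩ : ∃ A : ℂ →L[ℝ] ℂ, A = (ContinuousLinearMap.toSpanSingleton ℂ F').restrictScalars ℝ :=
    ⟨_, rfl⟩
  have hFd : HasFDerivWithinAt F A S c := by
    have := (hF.mono hSb).hasFDerivWithinAt.restrictScalars ℝ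
    rw [hA]
    exact this
  obtain ⟨M, hM⟩ : ∃ M : ℂ →L[ℝ] E, M = ptL.comp ((ContinuousLinearMap.id ℝ ℂ).prod A) := ⟨_, rfl⟩
  have hG : HasFDerivWithinAt (fun z => pt z (F z)) M S c := by
    rw [hM]
    exact ptL.hasFDerivAt.comp_hasFDerivWithinAt c ((hasFDerivWithinAt_id c S).prodMk hFd)
  have hGc : Tendsto (fun z => pt z (F z)) (𝓝[S] c) (𝓝 p) := by
    rw [hpd]
    exact hG.continuousWithinAt
  have hΦp : Φ p = 0 := by
    have h1 : Tendsto (fun z => Φ (pt z (F z))) (𝓝[S] c) (𝓝 (Φ p)) :=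
      hst.hasFDerivAt.continuousAt.tendsto.comp hGc
    have h2 : Tendsto (fun z => Φ (pt z (F z))) (𝓝[S] c) (𝓝 0) := by
      refine tendsto_const_nhds.congr' ?_
      filter_upwards [self_mem_nhdsWithin] with z hz
      exact (hall z hz).2.1.symm
    exact tendsto_nhds_unique h1 h2
  have hLM : L.comp M = 0 := by
    have h1 : HasFDerivWithinAt (fun z => Φ (pt z (F z))) (L.comp M) S c := by
      have h2 : HasFDerivAt Φ L (pt c (F c)) := by
        rw [← hpd]
        exact hst.hasFDerivAt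
      exact h2.comp_hasFDerivWithinAt c hG
    have h2 : HasFDerivWithinAt (fun z => Φ (pt z (F z))) (0 : ℂ →L[ℝ] ℂ) S c := by
      refine (hasFDerivWithinAt_const (0 : ℂ) c S).congr (fun z hz => (hall z hz).2.1) ?_
      rw [← hpd]
      exact hΦp
    exact huniq.eq h1 h2
  -- the vertical directions
  obtain ⟨N, hN⟩ : ∃ N : ℂ →L[ℝ] ℂ, N = L.comp vL := ⟨_, rfl⟩
  have hNs : Function.Surjective N := by
    intro y
    obtain ⟨v, hv⟩ := hsur y
    refine ⟨v.snd - A v.fst, ?_⟩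
    have h1 : v = M v.fst + vL (v.snd - A v.fst) := by
      rw [hM]
      change v = pt v.fst (A v.fst) + pt 0 (v.snd - A v.fst)
      have h2 : pt v.fst (A v.fst) + pt 0 (v.snd - A v.fst) =
          pt (v.fst + 0) (A v.fst + (v.snd - A v.fst)) := rfl
      rw [h2, add_zero, add_sub_cancel]
      rfl
    have h3 : L (M v.fst) = 0 := by
      have := congrArg (fun T : ℂ →L[ℝ] ℂ => T v.fst) hLM
      exact this
    rw [hN]
    change L (vL (v.snd - A v.fst)) = y
    rw [← hv]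
    conv_rhs => rw [h1]
    rw [map_add, h3, zero_add]
  have hNi : Function.Injective N := (LinearMap.injective_iff_surjective (f := N.toLinearMap)).2 hNs
  obtain ⟨K, hK0, hK⟩ := N.toLinearMap.exists_antilipschitzWith (LinearMap.ker_eq_bot.2 hNi)
  have hKK : ∀ w, ‖w‖ ≤ K * ‖N w‖ := fun w => by
    have := hK.le_mul_dist w 0
    simpa using this
  -- strict differentiability
  have hsp : Tendsto (fun z => (pt z (F z), pt z (F z - q z))) (𝓝[S] c) (𝓝 (p, p)) := by
    refine hGc.prodMk_nhds ?_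
    have h1 : Tendsto q (𝓝[S] c) (𝓝 0) := by
      refine hq.mono_left (nhdsWithin_mono _ ?_)
      rw [hS]
      exact inter_subset_left
    have h2 : Tendsto (fun z => pt z (F z) - vL (q z)) (𝓝[S] c) (𝓝 (p - vL 0)) :=
      hGc.sub ((vL.continuous.tendsto 0).comp h1)
    rw [map_zero, sub_zero] at h2
    refine h2.congr fun z => ?_
    change pt (z - 0) (F z - q z) = _
    rw [sub_zero]
  have hK0' : (0 : ℝ) < K := hK0
  have h5 := (hst.isLittleO.comp_tendsto hsp).def (c := 1 / (2 * K)) (by positivity)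
  obtain ⟨z, hz, hzS⟩ := (h5.and self_mem_nhdsWithin).exists
  obtain ⟨hq0, e1, e2⟩ := hall z hzS
  have h6 : pt z (F z) - pt z (F z - q z) = pt 0 (q z) := by
    have h7 : pt z (F z) - pt z (F z - q z) = pt (z - z) (F z - (F z - q z)) := rfl
    rw [h7, sub_self, sub_sub_cancel]
  simp only [Function.comp] at hz
  rw [e1, e2, h6, norm_pt, sub_self, zero_sub, norm_neg] at hz
  have h8 : L (pt 0 (q z)) = N (q z) := by
    rw [hN]
    rfl
  rw [h8] at hz
  have h9 := hKK (q z)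
  have h10 : 0 < ‖q z‖ := norm_pos_iff.2 hq0
  have h11 : K * ‖N (q z)‖ ≤ K * (1 / (2 * K) * ‖q z‖) := mul_le_mul_of_nonneg_left hz hK0'.le
  have h12 : (K : ℝ) * (1 / (2 * K) * ‖q z‖) = ‖q z‖ / 2 := by
    field_simp
  linarith

end Pool.Agent.Y785.BC
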